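import Pool.Agent.EQC.Stmts
import Pool.Agent.Helper51_Equitable.Nice

/-!
# Squad EQC, row SML: few edges, distinct powers of 2
-/

open SimpleGraph Finset
open Pool.Agent.Helper51_Equitable (edges nbrs vertexSum nb IsEquitableProper Nice)

namespace Pool.Agent.EQC.H3

theorem sml (hSum : SumStmt) : SmlStmt := by
  intro V _ G hG
  classical
  obtain ⟨ρ, hρ⟩ : ∃ ρ : Sym2 V → ℕ, ρ = fun e =>
      if h : e ∈ edges G then ((edges G).equivFin ⟨e, h⟩ : ℕ) else 0 := ⟨_, rfl⟩
  have hlt : ∀ e ∈ edges G, ρ e < (edges G).card := by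
    intro e he
    rw [hρ]
    simp only [he, dif_pos]
    exact Fin.is_lt _
  have hinj : ∀ e ∈ edges G, ∀ f ∈ edges G, ρ e = ρ f → e = f := by
    intro e he f hf h
    rw [hρ] at h
    simp only [he, hf, dif_pos] at h
    have h1 := (edges G).equivFin.injective (Fin.ext h)
    exact congrArg Subtype.val h1
  have hat : ∀ v, ∀ e ∈ at' G v, e ∈ edges G := fun v e he => (Finset.mem_filter.1 he).1
  have hsum : ∀ v, vertexSum G (fun e => 2 ^ ρ e) v = ∑ i ∈ (at' G v).image ρ, 2 ^ i := by
    intro v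
    rw [(hSum V G _ v).1, Finset.sum_image]
    intro e he f hf h
    exact hinj e (hat v e he) f (hat v f hf) h
  refine ⟨fun e => 2 ^ ρ e, ?_, ?_, ?_⟩
  · intro e he
    have he' : e ∈ edges G := Helper51_Equitable.mem_edges.2 he
    exact ⟨Nat.one_le_two_pow, Nat.pow_le_pow_right (by norm_num) (hlt e he').le⟩
  · intro u v huv h
    rw [hsum, hsum] at h
    have h1 := Finset.geomSum_injective (n := 2) le_rfl h
    have h2 : ∀ e, e ∈ at' G u → e ∈ at' G v := by
      intro e he
      have h3 : ρ e ∈ (at' G v).image ρ := by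
        rw [← h1]
        exact Finset.mem_image_of_mem _ he
      obtain ⟨f, hf, hfe⟩ := Finset.mem_image.1 h3
      rw [← hinj f (hat v f hf) e (hat u e he) hfe]
      exact hf
    have h2' : ∀ e, e ∈ at' G v → e ∈ at' G u := by
      intro e he
      have h3 : ρ e ∈ (at' G u).image ρ := by
        rw [h1]
        exact Finset.mem_image_of_mem _ he
      obtain ⟨f, hf, hfe⟩ := Finset.mem_image.1 h3
      rw [← hinj f (hat u f hf) e (hat v e he) hfe]
      exact hf
    have hne : u ≠ v := huv.ne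
    rcases hG.exists_other huv with ⟨w, hw, hadj⟩ | ⟨w, hw, hadj⟩
    · have h4 : s(u, w) ∈ at' G u :=
        Finset.mem_filter.2 ⟨Helper51_Equitable.mem_edges.2 hadj, Sym2.mem_mk_left u w⟩
      have h5 := (Finset.mem_filter.1 (h2 _ h4)).2
      rcases Sym2.mem_iff.1 h5 with h6 | h6
      · exact hne h6.symm
      · exact hw h6.symm
    · have h4 : s(v, w) ∈ at' G v :=
        Finset.mem_filter.2 ⟨Helper51_Equitable.mem_edges.2 hadj, Sym2.mem_mk_left v w⟩
      have h5 := (Finset.mem_filter.1 (h2' _ h4)).2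
      rcases Sym2.mem_iff.1 h5 with h6 | h6
      · exact hne h6
      · exact hw h6.symm
  · intro l l' _ _
    have h1 : nb G (fun e => 2 ^ ρ e) l ≤ 1 := by
      unfold nb
      rw [Set.ncard_le_one (Set.toFinite _)]
      rintro e ⟨he, he1⟩ f ⟨hf, hf1⟩
      refine hinj e (Helper51_Equitable.mem_edges.2 he) f (Helper51_Equitable.mem_edges.2 hf) ?_
      exact Nat.pow_right_injective le_rfl (he1.trans hf1.symm)
    omega

end Pool.Agent.EQC.H3
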